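import Pool.Agent.Lib.MP_ab8df0_nt.C.BB

/-! The classes of solutions of `x ^ 4 + 3 y ^ 3 + 2 z ^ 3 = 0` where `-(8 z + 4 y t)`,
`t ^ 3 = 12`, is a square: they are empty, by an elementary descent. -/

namespace Pool.Agent.Lib.MP_ab8df0_nt.T.B31

open QuadraticAlgebra Pool.Agent.Lib.MP_ab8df0_nt.C

abbrev W2 := QuadraticAlgebra ℤ (-2) 0

lemma W2_norm_zero (z : W2) (h : z.norm = 0) : z = 0 := by
  obtain ⟨x, y⟩ := z
  simp only [norm_def] at h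
  have hx : x = 0 := by nlinarith [sq_nonneg x, sq_nonneg y]
  have hy : y = 0 := by nlinarith [sq_nonneg x, sq_nonneg y]
  subst hx hy
  rfl

instance : IsDomain W2 := quad_domain _ _ W2_norm_zero

instance : IsPrincipalIdealRing W2 := quad_pid _ _ W2_norm_zero (by
  intro x y hx hy
  obtain ⟨h1, h2⟩ := abs_le.1 hx
  obtain ⟨h3, h4⟩ := abs_le.1 hy
  push_cast
  rw [abs_lt]
  constructor <;> nlinarith [mul_nonneg (sub_nonneg.2 h1) (sub_nonneg.2 h2),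
    mul_nonneg (sub_nonneg.2 h3) (sub_nonneg.2 h4), sq_nonneg x, sq_nonneg y])

/-- primitive representations of odd cubes by `a ^ 2 + 2 b ^ 2` -/
lemma cube2 (a b N : ℤ) (hab : IsCoprime a b) (hN : Odd N) (h : a ^ 2 + 2 * b ^ 2 = N ^ 3) :
    ∃ u v : ℤ, a = u ^ 3 - 6 * u * v ^ 2 ∧ b = 3 * u ^ 2 * v - 2 * v ^ 3 := by
  have hN3 := Int.odd_iff.1 (hN.pow (n := 3))
  have h2 : IsCoprime (N ^ 3) 2 := (Int.prime_two.coprime_iff_not_dvd.2 (by omega)).symm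
  have ha2 : IsCoprime a 2 := by
    refine (Int.prime_two.coprime_iff_not_dvd.2 ?_).symm
    rintro ⟨c, rfl⟩
    rw [← h, show (2 * c) ^ 2 + 2 * b ^ 2 = 2 * (2 * c ^ 2 + b ^ 2) by ring] at hN3
    omega
  have ha : IsCoprime (N ^ 3) a := by
    rw [← h, show a ^ 2 + 2 * b ^ 2 = 2 * b ^ 2 + a * a by ring]
    exact ((ha2.mul_right hab.pow_right).symm).add_mul_left_left _
  obtain ⟨u, v, huv⟩ := h2.mul_right ha
  have hcop : IsCoprime (⟨a, b⟩ : W2) ⟨a, -b⟩ := by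
    refine ⟨⟨u, 0⟩ * ⟨a, -b⟩ + ⟨v, 0⟩, ⟨v, 0⟩, ?_⟩
    ext <;> simp
    · linear_combination huv + u * h
    · ring
  obtain ⟨d, e, he⟩ := exists_associated_pow_of_mul_eq_pow' (c := ⟨N, 0⟩) (k := 3) hcop
    (by ext <;> simp [pow_succ] <;> linarith)
  have hn := Int.isUnit_iff.1 (isUnit_iff_norm_isUnit.1 e.isUnit)
  generalize (e : W2) = g at he hn
  obtain ⟨p, q⟩ := g
  simp only [norm_def] at hn
  have hq : q = 0 := by rcases hn with hn | hn <;> nlinarith [sq_nonneg p, sq_nonneg q]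
  subst hq
  have hp : p = 1 ∨ p = -1 := by
    rcases hn with hn | hn
    · exact sq_eq_one_iff.1 (by linarith)
    · nlinarith [sq_nonneg p]
  obtain ⟨s, t⟩ := d
  have e1 := congrArg re he
  have e2 := congrArg im he
  simp [pow_succ] at e1 e2
  rcases hp with rfl | rfl
  · exact ⟨s, t, by linarith, by linarith⟩
  · exact ⟨-s, -t, by linarith, by linarith⟩

/-- the obstruction modulo 9 -/
lemma nocube (p q N r : ℤ) (hpq : IsCoprime p q) (hN : Odd N) (h3 : ¬ 3 ∣ p)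
    (h : p ^ 2 - 10 * p * q + 27 * q ^ 2 = 3 * N ^ 3) (hr : p = r ^ 3 ∨ p = 2 * r ^ 3) : False := by
  obtain ⟨k, hk⟩ : (3 : ℤ) ∣ p - q := by
    have : (3 : ℤ) ∣ p * (p - q) := ⟨N ^ 3 + 3 * p * q - 9 * q ^ 2, by linarith⟩
    exact (Int.prime_three.dvd_or_dvd this).resolve_left h3
  obtain rfl : p = q + 3 * k := by linarith
  obtain ⟨a, b, hab⟩ := hpq
  obtain ⟨u, v, h1, h2⟩ := cube2 (k - 2 * q) (k - q) N
    ⟨-4 * a - b, 7 * a + b, by linear_combination hab⟩ hN (by linarith)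
  have hp : q + 3 * k = -4 * u ^ 3 + 21 * u ^ 2 * v + 24 * u * v ^ 2 - 14 * v ^ 3 := by linarith
  have key : ∀ u v r : ZMod 9, (-4 * u ^ 3 + 21 * u ^ 2 * v + 24 * u * v ^ 2 - 14 * v ^ 3 = r ^ 3 ∨
      -4 * u ^ 3 + 21 * u ^ 2 * v + 24 * u * v ^ 2 - 14 * v ^ 3 = 2 * r ^ 3) → 3 * r = 0 := by
    decide +kernel
  have h4 : ((3 * r : ℤ) : ZMod 9) = 0 := by
    push_cast
    refine key u v r (hr.imp (fun h5 => ?_) fun h5 => ?_) <;>
      exact_mod_cast congrArg (Int.cast : ℤ → ZMod 9) (hp.symm.trans h5)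
  rw [ZMod.intCast_zmod_eq_zero_iff_dvd] at h4
  have h5 : (3 : ℤ) ∣ r := by omega
  rcases hr with hr | hr <;> rw [hr] at h3
  · exact h3 (dvd_pow h5 (by norm_num))
  · exact h3 ((dvd_pow h5 (by norm_num)).mul_left _)

lemma cube_of (p q m : ℤ) (hpq : IsCoprime p q) (h : p * q = m ^ 3) : ∃ r : ℤ, p = r ^ 3 := by
  obtain ⟨r, hr⟩ := exists_associated_pow_of_mul_eq_pow' hpq h
  rcases Int.associated_iff.1 hr with hr | hr
  · exact ⟨r, hr.symm⟩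
  · exact ⟨-r, by linarith⟩

/-- the curve of genus two -/
lemma core (m n x : ℤ) (hmn : IsCoprime m n) (hn : Odd n) (h3 : ¬ 3 ∣ m)
    (h : x ^ 2 = 9 * n ^ 6 + 120 * m ^ 3 * n ^ 3 - 32 * m ^ 6)
    (hA : ¬ 3 ∣ 3 * n ^ 3 + 20 * m ^ 3 - x) : False := by
  have hn3 := hn.pow (n := 3)
  have hn3' := Int.odd_iff.1 hn3
  have hx : x % 2 = 1 := by
    rcases Int.even_or_odd x with ⟨c, rfl⟩ | hx
    · have := Int.odd_iff.1 (hn.pow (n := 6))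
      have h1 : n ^ 6 = 2 * (2 * c ^ 2 - 4 * n ^ 6 - 60 * m ^ 3 * n ^ 3 + 16 * m ^ 6) := by
        linear_combination -h
      omega
    · exact Int.odd_iff.1 hx
  obtain ⟨P, hP⟩ : (2 : ℤ) ∣ 3 * n ^ 3 + 20 * m ^ 3 - x := by omega
  obtain ⟨R, hR⟩ : (2 : ℤ) ∣ 3 * n ^ 3 + 20 * m ^ 3 + x := by omega
  have hP3 : ¬ 3 ∣ P := fun h => hA (hP ▸ h.mul_left _)
  have h1 : P * R = 3 ^ 3 * (4 * m ^ 6) := by
    have : 2 * P * (2 * R) = 432 * m ^ 6 := by rw [← hP, ← hR]; linear_combination -h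
    linarith
  obtain ⟨R, rfl⟩ : (3 : ℤ) ^ 3 ∣ R :=
    (Int.prime_three.coprime_iff_not_dvd.2 hP3).pow_left.dvd_of_dvd_mul_left ⟨_, h1⟩
  have h2 : P * R = (2 * m ^ 3) ^ 2 := by linarith
  have hs : P + 27 * R = 3 * n ^ 3 + 20 * m ^ 3 := by linarith
  have hm0 : m ≠ 0 := fun h0 => h3 (by simp [h0])
  have hPR : IsCoprime P R := by
    refine isCoprime_of_prime_dvd (fun h0 => hP3 (by simp [h0.1])) fun p hp p0 p1 => ?_
    have h4 : p ∣ 3 * n ^ 3 + 20 * m ^ 3 := hs ▸ p0.add (p1.mul_left _)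
    rcases hp.dvd_or_dvd (hp.dvd_of_dvd_pow (h2 ▸ p0.mul_right R)) with h5 | h5
    · have h6 : p ∣ n ^ 3 := by
        have : n ^ 3 = 3 * n ^ 3 + 20 * m ^ 3 - 2 * (n ^ 3 + 10 * m ^ 3) := by ring
        rw [this]
        exact h4.sub (h5.mul_right _)
      obtain ⟨c, hc⟩ := hn3
      exact hp.not_isUnit (isUnit_of_dvd_one ((dvd_add_right (h5.mul_right c)).1 (hc ▸ h6)))
    · have h6 := hp.dvd_of_dvd_pow h5
      rcases hp.dvd_or_dvd ((dvd_add_left (h5.mul_left 20)).1 h4) with h7 | h7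
      · exact hp.not_isUnit ((Int.prime_three.coprime_iff_not_dvd.2 h3).isUnit_of_dvd' h7 h6)
      · exact hp.not_isUnit (hmn.isUnit_of_dvd' h6 (hp.dvd_of_dvd_pow h7))
  -- both factors are squares up to a common sign
  have fin : ∀ p q m n : ℤ, Odd n → IsCoprime (p ^ 2) (q ^ 2) → ¬ 3 ∣ p ^ 2 →
      p ^ 2 * q ^ 2 = (2 * m ^ 3) ^ 2 → p ^ 2 + 27 * q ^ 2 = 3 * n ^ 3 + 20 * m ^ 3 → False := by
    have fin' : ∀ p q m n : ℤ, Odd n → IsCoprime p q → ¬ 3 ∣ p → p * q = 2 * m ^ 3 →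
        p ^ 2 + 27 * q ^ 2 = 3 * n ^ 3 + 20 * m ^ 3 → False := by
      intro p q m n hn hc h3 h1 h2
      rcases Int.prime_two.dvd_or_dvd (⟨_, h1⟩ : (2 : ℤ) ∣ p * q) with ⟨c, hc2⟩ | ⟨c, hc2⟩
      · obtain ⟨r, hr⟩ := cube_of c q m (hc2 ▸ hc).of_mul_left_right (by rw [hc2] at h1; linarith)
        exact nocube p q n r hc hn h3 (by linarith) (Or.inr (by rw [hc2, hr]))
      · obtain ⟨r, hr⟩ := cube_of p c m (hc2 ▸ hc).of_mul_right_right (by rw [hc2] at h1; linarith)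
        exact nocube p q n r hc hn h3 (by linarith) (Or.inl hr)
    intro p q m n hn hc h3 h1 h2
    have hc' := (IsCoprime.pow_iff (by norm_num) (by norm_num)).1 hc
    have h3' : ¬ 3 ∣ p := fun h => h3 (dvd_pow h (by norm_num))
    rcases sq_eq_sq_iff_eq_or_eq_neg.1 (show (p * q) ^ 2 = (2 * m ^ 3) ^ 2 by linarith) with h | h
    · exact fin' p q m n hn hc' h3' h h2
    · exact fin' p (-q) m n hn hc'.neg_right h3' (by linarith) (by linarith)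
  have hpos : 0 < P * R := by rw [h2]; positivity
  obtain ⟨p, hp | hp⟩ := Int.sq_of_isCoprime hPR h2 <;>
    obtain ⟨q, hq | hq⟩ := Int.sq_of_isCoprime hPR.symm (by rw [mul_comm]; exact h2) <;>
    subst hp hq
  · exact fin p q m n hn hPR hP3 h2 hs
  · nlinarith [mul_nonneg (sq_nonneg p) (sq_nonneg q)]
  · nlinarith [mul_nonneg (sq_nonneg p) (sq_nonneg q)]
  · exact fin p q (-m) (-n) hn.neg ((IsCoprime.neg_neg_iff _ _).1 hPR) (by simpa using hP3) (by linarith)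
      (by linarith)

/-- the two quartic forms of the parametrisation have no common square factor -/
lemma unit_j (m n j y z : ℤ) (hmn : IsCoprime m n) (hj : Odd j)
    (h1 : n * (3 * n ^ 3 - 16 * m ^ 3) = -y * j ^ 2)
    (h2 : 4 * (m * (2 * m ^ 3 + 3 * n ^ 3)) = -z * j ^ 2) : j ^ 2 = 1 := by
  have hj2 : IsCoprime j 2 :=
    (Int.prime_two.coprime_iff_not_dvd.2 (by have := Int.odd_iff.1 hj; omega)).symm
  have hj3 : IsCoprime j 3 := by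
    refine (Int.prime_three.coprime_iff_not_dvd.2 ?_).symm
    rintro ⟨c, rfl⟩
    have h3 : (3 : ℤ) ∣ m := Int.prime_three.dvd_of_dvd_pow (n := 4)
      ⟨3 * m ^ 4 + 4 * m * n ^ 3 + 3 * z * c ^ 2, by linear_combination -h2⟩
    obtain ⟨m, rfl⟩ := h3
    have h4 : (3 : ℤ) ∣ n := Int.prime_three.dvd_of_dvd_pow (n := 4)
      ⟨48 * m ^ 3 * n - y * c ^ 2, by linarith⟩
    exact Int.prime_three.not_isUnit (hmn.isUnit_of_dvd' ⟨m, rfl⟩ h4)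
  have hm : j ∣ 2 ^ 4 * 3 ^ 2 * m ^ 7 :=
    ⟨j * (-12 * m * n ^ 2 * y - (18 * m ^ 3 - 3 * n ^ 3) * z), by
      linear_combination 12 * m * n ^ 2 * h1 + (18 * m ^ 3 - 3 * n ^ 3) * h2⟩
  have hn : j ∣ 3 ^ 4 * n ^ 7 :=
    ⟨j * (-(27 * n ^ 3 + 16 * m ^ 3) * y - 32 * m ^ 2 * n * z), by
      linear_combination (27 * n ^ 3 + 16 * m ^ 3) * h1 + 32 * m ^ 2 * n * h2⟩
  have hu := (hmn.pow (m := 7) (n := 7)).isUnit_of_dvd'
    ((hj2.pow_right.mul_right hj3.pow_right).dvd_of_dvd_mul_left hm)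
    (hj3.pow_right.dvd_of_dvd_mul_left hn)
  rcases Int.isUnit_iff.1 hu with rfl | rfl <;> norm_num

lemma param (y z : ℤ) (hyz : IsCoprime y z) (hy : Odd y) (b0 b1 b2 : ℚ)
    (e0 : b0 ^ 2 + 24 * b1 * b2 = -8 * z) (e1 : 2 * b0 * b1 + 12 * b2 ^ 2 = -4 * y)
    (e2 : b1 ^ 2 + 2 * b0 * b2 = 0) : ∃ m n : ℤ, IsCoprime m n ∧
      y = -(n * (3 * n ^ 3 - 16 * m ^ 3)) ∧ z = -(4 * (m * (2 * m ^ 3 + 3 * n ^ 3))) := by
  have hy2 := Int.odd_iff.1 hy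
  have hb2 : b2 ≠ 0 := by
    rintro rfl
    obtain rfl : b1 = 0 := pow_eq_zero_iff (n := 2) two_ne_zero |>.1 (by linarith)
    have : (y : ℚ) = 0 := by linarith
    have : y = 0 := by exact_mod_cast this
    omega
  obtain ⟨M, n, hMn, hn0, hr⟩ : ∃ M n : ℤ, IsCoprime M n ∧ (n : ℚ) ≠ 0 ∧ b1 * n = M * b2 :=
    ⟨(b1 / b2).num, (b1 / b2).den, Int.isCoprime_iff_gcd_eq_one.2 (b1 / b2).reduced,
      by exact_mod_cast (b1 / b2).den_nz, by
        rw [Int.cast_natCast, ← Rat.mul_den_eq_num]; field_simp⟩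
  obtain ⟨k, rfl⟩ : ∃ k, b2 = k * n ^ 2 := ⟨b2 / n ^ 2, by field_simp⟩
  obtain rfl : b1 = k * M * n := mul_right_cancel₀ hn0 (by linear_combination hr)
  obtain rfl : b0 = -(k * M ^ 2 / 2) := mul_right_cancel₀ hb2 (by linear_combination e2 / 2)
  obtain ⟨a, b, hab⟩ := hyz
  obtain ⟨U, hU⟩ : ∃ U : ℤ, U = n * (12 * n ^ 3 - M ^ 3) := ⟨_, rfl⟩
  obtain ⟨V, hV⟩ : ∃ V : ℤ, V = M * (M ^ 3 + 96 * n ^ 3) := ⟨_, rfl⟩
  have f1 : k ^ 2 * U = -4 * y := by rw [hU]; push_cast; linear_combination e1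
  have f0 : k ^ 2 * V = -32 * z := by rw [hV]; push_cast; linear_combination 4 * e0
  obtain ⟨W, hW⟩ : ∃ W : ℤ, W = 8 * a * U + b * V := ⟨_, rfl⟩
  have hab' : (a : ℚ) * y + b * z = 1 := by exact_mod_cast hab
  have f2 : k ^ 2 * W = -32 := by
    rw [hW]; push_cast; linear_combination 8 * a * f1 + b * f0 - 32 * hab'
  have hk : k ≠ 0 := by rintro rfl; norm_num at f2
  obtain ⟨j, hj⟩ : IsSquare (-2 * W) := Rat.isSquare_intCast_iff.1 ⟨8 / k, by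
    push_cast; field_simp; linear_combination -2 * f2⟩
  have g1 : 8 * U = y * W := by
    have : (8 * U : ℚ) = y * W := by linear_combination (-(W : ℚ) / 4) * f1 + (U / 4 : ℚ) * f2
    exact_mod_cast this
  have g0 : V = z * W := by
    have : (V : ℚ) = z * W := by linear_combination (-(W : ℚ) / 32) * f0 + (V / 32 : ℚ) * f2
    exact_mod_cast this
  have ev : ∀ (u : ℤ) (e : ℕ), 2 ∣ u ^ e → 2 ∣ u := fun u e h => Int.prime_two.dvd_of_dvd_pow h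
  have evy : ∀ u : ℤ, 2 ∣ y * u ^ 2 → 2 ∣ u := fun u h =>
    ev u 2 ((Int.prime_two.dvd_or_dvd h).resolve_left (by omega))
  obtain ⟨j, rfl⟩ := ev j 2 ⟨-W, by linarith⟩
  obtain rfl : W = -2 * j ^ 2 := by linarith
  obtain ⟨M, rfl⟩ := ev M 4 ⟨-z * j ^ 2 - 48 * M * n ^ 3, by linarith⟩
  have hn : ¬ 2 ∣ n := fun h => Int.prime_two.not_isUnit (hMn.isUnit_of_dvd' ⟨M, rfl⟩ h)
  obtain ⟨j, rfl⟩ := evy j ⟨-8 * (n * (3 * n ^ 3 - 2 * M ^ 3)), by linarith⟩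
  obtain ⟨j, rfl⟩ := evy j ⟨-2 * (n * (3 * n ^ 3 - 2 * M ^ 3)), by linarith⟩
  obtain ⟨m, rfl⟩ := ev M 4 ⟨-z * j ^ 2 - 6 * M * n ^ 3, by linarith⟩
  have k1 : n * (3 * n ^ 3 - 16 * m ^ 3) = -y * j ^ 2 := by linarith
  have k0 : 4 * (m * (2 * m ^ 3 + 3 * n ^ 3)) = -z * j ^ 2 := by linarith
  have hmn : IsCoprime m n := hMn.of_mul_left_right.of_mul_left_right
  have hj1 : Odd j := by
    rcases Int.even_or_odd' j with ⟨c, rfl | rfl⟩
    · exact (hn (ev n 4 ⟨2 * n ^ 4 - 8 * m ^ 3 * n + 2 * y * c ^ 2, by linarith⟩)).elim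
    · exact ⟨c, rfl⟩
  have := unit_j m n j y z hmn hj1 k1 k0
  exact ⟨m, n, hmn, by linear_combination k1 - y * this, by linear_combination k0 - z * this⟩

/-- `-(8 z + 4 y t)` is not a square -/
theorem nosq {x y z : ℤ} (hyz : IsCoprime y z)
    (h : 2 ^ 2 * x ^ 4 + 12 * y ^ 3 + (2 * z) ^ 3 = 0) (b0 b1 b2 : ℚ)
    (e0 : b0 ^ 2 + 24 * b1 * b2 = -8 * z) (e1 : 2 * b0 * b1 + 12 * b2 ^ 2 = -4 * y)
    (e2 : b1 ^ 2 + 2 * b0 * b2 = 0) : False := by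
  have hy : Odd y := by
    rcases Int.even_or_odd' y with ⟨c, rfl | rfl⟩
    · obtain ⟨x, rfl⟩ : (2 : ℤ) ∣ x :=
        Int.prime_two.dvd_of_dvd_pow (n := 4) ⟨-12 * c ^ 3 - z ^ 3, by linarith⟩
      exact (Int.prime_two.not_isUnit (hyz.isUnit_of_dvd' ⟨c, rfl⟩
        (Int.prime_two.dvd_of_dvd_pow (n := 3) ⟨-4 * x ^ 4 - 6 * c ^ 3, by linarith⟩))).elim
    · exact ⟨c, rfl⟩
  obtain ⟨m, n, hmn, rfl, rfl⟩ := param y z hyz hy b0 b1 b2 e0 e1 e2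
  have hn : Odd n := (Int.odd_mul.1 (odd_neg.1 hy)).1
  have h3 : ¬ 3 ∣ m := by
    rintro ⟨m, rfl⟩
    exact Int.prime_three.not_isUnit (hyz.isUnit_of_dvd' ⟨-(n * (n ^ 3 - 144 * m ^ 3)), by ring⟩
      ⟨-(4 * (m * (54 * m ^ 3 + 3 * n ^ 3))), by ring⟩)
  have h4 : (x ^ 2) ^ 2 = (9 * n ^ 6 + 120 * m ^ 3 * n ^ 3 - 32 * m ^ 6) ^ 2 := by
    linarith
  have h5 : x ^ 2 = 9 * n ^ 6 + 120 * m ^ 3 * n ^ 3 - 32 * m ^ 6 := by
    refine (sq_eq_sq_iff_eq_or_eq_neg.1 h4).resolve_right fun h5 => ?_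
    obtain ⟨c, hc⟩ := hn.pow (n := 3)
    have h6 : x ^ 2 = 4 * (-9 * c ^ 2 - 9 * c - 3 - 30 * m ^ 3 * n ^ 3 + 8 * m ^ 6) + 3 := by
      linear_combination h5 - 9 * (n ^ 3 + 2 * c + 1) * hc
    rcases Int.even_or_odd' x with ⟨d, rfl | rfl⟩
    · have : (2 * d) ^ 2 = 4 * d ^ 2 := by ring
      omega
    · have : (2 * d + 1) ^ 2 = 4 * (d ^ 2 + d) + 1 := by ring
      omega
  by_cases hA : 3 ∣ 3 * n ^ 3 + 20 * m ^ 3 - x
  · refine core m n (-x) hmn hn h3 (by linarith) fun hB => h3 ?_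
    exact Int.prime_three.dvd_of_dvd_pow (n := 3) (by omega)
  · exact core m n x hmn hn h3 h5 hA

theorem bb : BB31 := by
  rintro x y z - hyz h ⟨a, ha⟩
  simp only [m3, p4, c12, eps12, Prod.mk.injEq] at ha
  obtain ⟨h0, h1, h2⟩ := ha
  push_cast at h0 h1 h2
  refine (nosq hyz h (m3 12 (4, -4, 1) (m3 12 a a)).1 (m3 12 (4, -4, 1) (m3 12 a a)).2.1
    (m3 12 (4, -4, 1) (m3 12 a a)).2.2 ?_ ?_ ?_).elim <;> simp only [m3]
  · linear_combination 4 * h0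
  · linear_combination 4 * h1
  · linear_combination 4 * h2

end Pool.Agent.Lib.MP_ab8df0_nt.T.B31

namespace Pool.Agent.Lib.MP_ab8df0_nt.T.B33

open Pool.Agent.Lib.MP_ab8df0_nt.C

theorem bb : BB33 := by
  rintro x y z - hyz h ⟨a, ha⟩
  simp only [m3, p4, c12, eps12, Prod.mk.injEq] at ha
  obtain ⟨h0, h1, h2⟩ := ha
  push_cast at h0 h1 h2
  refine B31.nosq hyz h (m3 12 (112, -10, -17) (m3 12 a a)).1
    (m3 12 (112, -10, -17) (m3 12 a a)).2.1 (m3 12 (112, -10, -17) (m3 12 a a)).2.2 ?_ ?_ ?_ <;>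
    simp only [m3]
  · linear_combination 4 * h0
  · linear_combination 4 * h1
  · linear_combination 4 * h2

end Pool.Agent.Lib.MP_ab8df0_nt.T.B33
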